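import Pool.Agent.MWGX.StmtsB

set_option autoImplicit false

/-!
# Squad MWGX, row RNG (helper98): renaming with the gap letter (twin of MWGQ.REN of helper89)
-/

namespace Pool.Agent.MWGX.H98

open Pool.Agent.Helper14_MV Pool.Agent.Helper2_MV Pool.Agent.MWGX
open Pool.Agent.MWGN (Nm Tau nl sg)
open Pool.Agent.MWGQ (pw kr krl bd)

/-- a function with given values on a list without repetitions -/
theorem exf : ∀ (l : List ℕ) (vs : List (List ℕ)), l.Nodup → l.length = vs.length →
    ∃ f : ℕ → List ℕ, l.map f = vs := by
  intro l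
  induction l with
  | nil =>
    intro vs _ hl
    refine ⟨fun _ => [], ?_⟩
    rw [List.map_nil]
    exact (List.length_eq_zero_iff.1 hl.symm).symm
  | cons a l ih =>
    intro vs hn hl
    rcases vs with _ | ⟨v, vs⟩
    · simp at hl
    · obtain ⟨ha, hn'⟩ := List.nodup_cons.1 hn
      obtain ⟨f, hf⟩ := ih vs hn' (by simpa using hl)
      refine ⟨Function.update f a v, ?_⟩
      rw [List.map_cons, Function.update_self]
      congr 1
      rw [← hf]
      apply List.map_congr_left
      intro b hb
      rw [Function.update_of_ne]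
      rintro rfl
      exact ha hb

theorem flatMap_congr' {α : Type} {l : List α} {f g : α → List ℕ} (h : ∀ a ∈ l, f a = g a) :
    l.flatMap f = l.flatMap g := by
  induction l with
  | nil => rfl
  | cons a l ih =>
    rw [List.flatMap_cons, List.flatMap_cons, h a List.mem_cons_self,
      ih fun b hb => h b (List.mem_cons_of_mem a hb)]

theorem pw_flatMap (k : ℕ) (u : List ℕ) (f : ℕ → List ℕ) :
    (pw k u).flatMap f = pw k (u.flatMap f) := by
  unfold pw
  induction k with
  | zero => rfl
  | succ k ih =>
    rw [List.replicate_succ, List.flatten_cons, List.flatMap_append, ih, List.replicate_succ,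
      List.flatten_cons]

theorem gL_flatMap (n c : ℕ) (Z A B : List ℕ) (f : ℕ → List ℕ) :
    (gL n c Z A B).flatMap f = gL n c (Z.flatMap f) (A.flatMap f) (B.flatMap f) := by
  simp only [gL, List.flatMap_append, pw_flatMap]

theorem gR_flatMap (n c : ℕ) (Z A B : List ℕ) (f : ℕ → List ℕ) :
    (gR n c Z A B).flatMap f = gR n c (Z.flatMap f) (A.flatMap f) (B.flatMap f) := by
  simp only [gR, List.flatMap_append, pw_flatMap]

/-- row RNG -/
theorem rng : RngStmt := by
  intro n β ν e τ m hτ hn hr E X Y A B S L C
  obtain ⟨f, hf⟩ := exf (e :: nl ν m) (E :: X :: Y :: A :: B ::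
    ((List.range (m + 1)).map S ++ ((List.range (m + 1)).map L ++ (List.range m).map C))) hn
    (by simp [nl])
  unfold nl at hf
  simp only [List.map_cons, List.map_append, List.map_map, List.cons.injEq] at hf
  obtain ⟨hE, hX, hY, hA, hB, hrest⟩ := hf
  obtain ⟨hS, hrest⟩ := List.append_inj hrest (by simp)
  obtain ⟨hL, hC⟩ := List.append_inj hrest (by simp)
  have hS' : ∀ i ≤ m, f (ν.S i) = S i := fun i hi =>
    (List.map_inj_left.1 hS) i (List.mem_range.2 (by omega))
  have hL' : ∀ i ≤ m, f (ν.L i) = L i := fun i hi =>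
    (List.map_inj_left.1 hL) i (List.mem_range.2 (by omega))
  have hC' : ∀ i < m, f (ν.C i) = C i := fun i hi =>
    (List.map_inj_left.1 hC) i (List.mem_range.2 (by omega))
  have hbd : (bd n (sg ν.L) (sg ν.C) m).flatMap f = bd n L C m := by
    unfold bd
    rw [List.flatMap_assoc]
    apply flatMap_congr'
    intro i hi
    have hi' := List.mem_range.1 hi
    rw [List.flatMap_append, pw_flatMap]
    simp only [sg, List.flatMap_cons, List.flatMap_nil, List.append_nil]
    rw [hL' i (by omega), hC' i hi']
  have htl : (τ.flatMap (fun i => sg ν.S i ++ sg ν.L i)).flatMap f =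
      τ.flatMap (fun i => S i ++ L i) := by
    rw [List.flatMap_assoc]
    apply flatMap_congr'
    intro i hi
    have hi' := (hτ.2 i).1 hi
    simp only [sg, List.flatMap_append, List.flatMap_cons, List.flatMap_nil, List.append_nil]
    rw [hL' i hi', hS' i hi']
  have hk : (krl n ν τ m).flatMap f = MWGQ.kr n X Y A B S L C τ m := by
    unfold krl MWGQ.kr
    simp only [List.flatMap_append, List.flatMap_singleton, hbd, htl]
    simp only [sg, List.flatMap_singleton, hX, hY, hA, hB, hL' m le_rfl]
  have h1 := hr.sub f
  rw [List.flatMap_append, List.flatMap_append, hk, gL_flatMap, gR_flatMap] at h1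
  simp only [List.flatMap_cons, List.flatMap_nil, List.append_nil, hE, hX, hY] at h1
  exact h1

end Pool.Agent.MWGX.H98
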